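import Pool.Agent.MP_ea150c_mp.H16.FSpec
import Pool.Agent.MP_ea150c_mp.H29.RowF1
import Pool.Agent.MP_ea150c_mp.H33.RowF2

/-! The trace on the middle term of the local complex. -/

set_option linter.unusedSectionVars false

namespace Pool.Agent.MP_ea150c_mp.H87

open Pool.Agent.MP_ea150c_mp.H49 Pool.Agent.MP_ea150c_mp.H49.FrameData
  Pool.Agent.MP_ea150c_mp.H16

noncomputable section

section Lin

theorem free_of {p : ℕ} [Fact p.Prime] {M : Type} [AddCommGroup M] [Module ℤ_[p] M]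
    (h : ∀ x : M, (p : ℤ_[p]) • x = 0 → x = 0) (N : Submodule ℤ_[p] M) (hN : N.FG) :
    Module.Finite ℤ_[p] N ∧ Module.Free ℤ_[p] N := by
  have h1 : ∀ (n : ℕ) (x : M), (p : ℤ_[p]) ^ n • x = 0 → x = 0 := by
    intro n
    induction n with
    | zero => simp
    | succ n ih => intro x hx; rw [pow_succ, mul_smul] at hx; exact h x (ih _ hx)
  have : Module.IsTorsionFree ℤ_[p] M := Module.IsTorsionFree.of_smul_eq_zero fun a x hx => by
    refine or_iff_not_imp_left.2 fun ha => ?_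
    rw [PadicInt.unitCoeff_spec ha, mul_smul] at hx
    exact h1 _ x (((Units.isUnit _).smul_eq_zero).1 hx)
  have : Module.Finite ℤ_[p] N := Module.Finite.iff_fg.2 hN
  exact ⟨this, Module.free_of_finite_type_torsion_free'⟩

variable {O κ : Type} [CommRing O] [Fintype κ] [DecidableEq κ] {N : κ → Type}
  [∀ i, AddCommGroup (N i)] [∀ i, Module O (N i)]

theorem piMap_pow (T : ∀ i, N i →ₗ[O] N i) (k : ℕ) :
    LinearMap.piMap T ^ k = LinearMap.piMap fun i => T i ^ k := by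
  induction k with
  | zero => ext x; simp
  | succ k ih => rw [pow_succ, ih]; ext x; simp [pow_succ]

theorem trace_piMap [∀ i, Module.Finite O (N i)] [∀ i, Module.Free O (N i)]
    (T : ∀ i, N i →ₗ[O] N i) :
    LinearMap.trace O _ (LinearMap.piMap T) = ∑ i, LinearMap.trace O _ (T i) := by
  have e : LinearMap.piMap T = ∑ i, LinearMap.single O N i ∘ₗ (T i ∘ₗ LinearMap.proj i) := by
    refine LinearMap.ext fun x => funext fun l => ?_
    simp [Finset.sum_apply, Finset.sum_pi_single]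
  rw [e, map_sum]
  refine Finset.sum_congr rfl fun i _ => ?_
  rw [LinearMap.trace_comp_comm']
  congr 1
  ext x
  simp

theorem prodMap_pow {M M' : Type} [AddCommGroup M] [Module O M] [AddCommGroup M'] [Module O M']
    (f : M →ₗ[O] M) (g : M' →ₗ[O] M') (k : ℕ) :
    f.prodMap g ^ k = (f ^ k).prodMap (g ^ k) := by
  induction k with
  | zero => ext x <;> simp
  | succ k ih => rw [pow_succ, ih, pow_succ, pow_succ]; rfl

end Lin

section Frame
variable {p : ℕ} [Fact p.Prime] {A B Γ I ι : Type} {σ : I → Type}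
  [CommRing A] [Algebra ℤ_[p] A] [AddCommGroup B] [Module A B] [Module ℤ_[p] B]
  [IsScalarTower ℤ_[p] A B] [AddCommGroup Γ] [LinearOrder I] [Fintype I] [Fintype ι]
  [DecidableEq ι] [∀ j, Fintype (σ j)] [∀ j, DecidableEq (σ j)]
  (F : FrameData p A B Γ I ι σ)

/-- Extension by zero from the unit vectors. -/
def xt {κ : Type} [Fintype κ] [DecidableEq κ] (β : κ → B) (n : κ → ℕ) : B :=
  ∑ i, if n = Pi.single i 1 then β i else 0

theorem xt_single {κ : Type} [Fintype κ] [DecidableEq κ] (β : κ → B) (i : κ) :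
    xt β (Pi.single i 1) = β i := by
  unfold xt
  rw [Finset.sum_eq_single i, if_pos rfl]
  · intro l _ hl
    rw [if_neg]
    intro e
    have := congrFun e i
    simp [Ne.symm hl] at this
  · simp

theorem xt_off {κ : Type} [Fintype κ] [DecidableEq κ] (β : κ → B) (n : κ → ℕ)
    (h : ∀ i, n ≠ Pi.single i 1) : xt β n = 0 :=
  Finset.sum_eq_zero fun i _ => if_neg (h i)

/-- The operator `D_i ∘ m_b`. -/
def V1 (j : I) (i : σ j) : B →ₗ[ℤ_[p]] (A →ₗ[ℤ_[p]] B) := H33.Vn F j (Pi.single i 1)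

theorem V1_eq (j : I) (i : σ j) (b : B) : V1 F j i b = F.D j i ∘ₗ mOp ℤ_[p] A b := by
  rw [← H29.Dn_single]; rfl

theorem V1_apply (j : I) (i : σ j) (b : B) (r : A) : V1 F j i b r = F.D j i (r • b) := by
  rw [V1_eq]; rfl

theorem single_mem_idx (j : I) (i : σ j) (m : ℕ) : Pi.single i 1 ∈ idx σ j (m + 1) := by
  rw [H29.mem_idx]; simp

theorem sum_unit (j : I) (m : ℕ) (β : σ j → B) :
    ∑ n ∈ idx σ j (m + 1), H33.Vn F j n (xt β n) = ∑ i, V1 F j i (β i) := by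
  simp only [xt, map_sum]
  rw [Finset.sum_comm]
  refine Finset.sum_congr rfl fun i _ => ?_
  rw [Finset.sum_eq_single (Pi.single i 1), if_pos rfl, V1]
  · intro n _ hn; rw [if_neg hn, map_zero]
  · intro h; exact absurd (single_mem_idx j i m) h

theorem cmp_unit (f2 : F.F2) (j : I) (m : ℕ) (β' : (σ j → ℕ) → B) (β : σ j → B)
    (h : ∑ n ∈ idx σ j (m + 1), H33.Vn F j n (β' n) = ∑ i, V1 F j i (β i)) :
    ∀ n ∈ idx σ j (m + 1), β' n = xt β n := by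
  intro n hn
  refine sub_eq_zero.1 (f2.2.1 (m + 1) j (fun n => β' n - xt β n) ?_ n hn)
  change ∑ n ∈ idx σ j (m + 1), H33.Vn F j n (β' n - xt β n) = 0
  simp only [map_sub, Finset.sum_sub_distrib]
  rw [h, sum_unit, sub_self]

theorem unit_rep (j : I) (m : ℕ) (β' : (σ j → ℕ) → B)
    (h : ∀ n ∈ idx σ j (m + 1), (∀ i, n ≠ Pi.single i 1) → β' n = 0) :
    ∑ n ∈ idx σ j (m + 1), H33.Vn F j n (β' n) = ∑ i, V1 F j i (β' (Pi.single i 1)) := by
  rw [← sum_unit F j m]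
  refine Finset.sum_congr rfl fun n hn => ?_
  congr 1
  by_cases h1 : ∃ i, n = Pi.single i 1
  · obtain ⟨i, rfl⟩ := h1
    rw [xt_single]
  · push Not at h1
    rw [xt_off _ _ h1, h n hn h1]

theorem rep_mem (f1 : F.F1) {J : Finset I} {j : I} (hj : j ∈ J) {m : ℕ} {P : A →ₗ[ℤ_[p]] B}
    (hP : P ∈ F.L J 0 (m + 1)) : ∃ β' : (σ j → ℕ) → B,
      (∀ i, β' (Pi.single i 1) ∈ F.Bl J (F.wt j i) m) ∧
      P = ∑ n ∈ idx σ j (m + 1), H33.Vn F j n (β' n) := by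
  obtain ⟨β', h1, h2⟩ := (f1.2.2.2.2.2.2.1 J 0 (m + 1) j P hj).1 hP
  refine ⟨β', fun i => ?_, h2⟩
  have := h1 _ (single_mem_idx j i m)
  simpa [H29.wn_single] using this

theorem sat_rep (hL : F.AxL) (f1 : F.F1) (f2 : F.F2) {J : Finset I} {j : I} (hj : j ∈ J) {m : ℕ}
    {P : A →ₗ[ℤ_[p]] B} (hP : P ∈ F.L J 0 (m + 1)) (β : σ j → B)
    (h : (p : ℤ_[p]) • P = ∑ i, V1 F j i (β i)) :
    ∃ γ : σ j → B, (∀ i, γ i ∈ F.Bl J (F.wt j i) m) ∧ P = ∑ i, V1 F j i (γ i) := by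
  obtain ⟨β', h1, h2⟩ := rep_mem F f1 hj hP
  refine ⟨_, h1, h2.trans (unit_rep F j m β' fun n hn hn' => hL.tf _ ?_)⟩
  rw [← xt_off β n hn']
  refine cmp_unit F f2 j m (fun n => (p : ℤ_[p]) • β' n) β ?_ n hn
  rw [← h, h2, Finset.smul_sum]
  simp only [map_smul]

theorem one_rep (f1 : F.F1) {J : Finset I} {j : I} (hj : j ∈ J)
    {P : A →ₗ[ℤ_[p]] B} (hP : P ∈ F.L J 0 1) :
    ∃ γ : σ j → B, (∀ i, γ i ∈ F.Bl J (F.wt j i) 0) ∧ P = ∑ i, V1 F j i (γ i) := by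
  obtain ⟨β', h1, h2⟩ := rep_mem F f1 (m := 0) hj hP
  refine ⟨_, h1, h2.trans (unit_rep F j 0 β' fun n hn hn' => ?_)⟩
  exfalso
  rw [H29.mem_idx] at hn
  obtain ⟨i, -, hi⟩ := Finset.exists_ne_zero_of_sum_ne_zero (s := Finset.univ) (f := n) (by omega)
  refine hn' i (funext fun l => ?_)
  have h3 := Finset.add_sum_erase Finset.univ n (Finset.mem_univ i)
  by_cases hl : l = i
  · subst hl; rw [Pi.single_eq_same]; omega
  · rw [Pi.single_eq_of_ne hl]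
    have : n l ≤ ∑ x ∈ Finset.univ.erase i, n x :=
      Finset.single_le_sum (fun _ _ => Nat.zero_le _) (by simp [hl])
    omega

theorem PsiL_V1 (hC : F.AxC) (j : I) (i : σ j) (b : B) :
    F.ΨL j (V1 F j i b) = (p : ℤ_[p]) • V1 F j i (F.Ψ j (F.x j i ^ (p - 1) • b)) := by
  ext r
  change F.Ψ j (V1 F j i b (F.φ j r)) = (p : ℤ_[p]) • V1 F j i _ r
  rw [V1_apply, V1_apply, hC.ΨD, smul_comm (F.x j i ^ (p - 1)), hC.Ψφ]

theorem V1_WC (hL : F.AxL) (hC : F.AxC) {J : Finset I} {j : I} (hj : j ∈ J) (i : σ j) (S : ℕ)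
    {c : B} (hc : c ∈ sm ((p : ℤ_[p]) ^ S) (F.Bh J (F.wt j i))) : V1 F j i c ∈ F.WC J 0 S := by
  obtain ⟨c', hc', rfl⟩ := hc
  intro J' hJ w' r hr
  refine ⟨V1 F j i c' r, ?_, by simp⟩
  rw [V1_apply]
  have := hC.DH J' j i _ _ (hJ hj) (hL.smulH J' _ _ _ _ hr (hL.monoH _ _ _ hJ hc'))
  rwa [show w' + F.wt j i - F.wt j i = 0 + w' by abel] at this

theorem sm_anti {E : Type} [AddCommGroup E] [Module ℤ_[p] E] {S S' : ℕ} (h : S ≤ S')
    (M : Submodule ℤ_[p] E) : sm ((p : ℤ_[p]) ^ S') M ≤ sm ((p : ℤ_[p]) ^ S) M := by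
  rintro _ ⟨y, hy, rfl⟩
  refine ⟨(p : ℤ_[p]) ^ (S' - S) • y, M.smul_mem _ hy, ?_⟩
  simp only [LinearMap.lsmul_apply]
  rw [← mul_smul, ← pow_add, Nat.add_sub_cancel' h]

theorem small_Lt (hL : F.AxL) (f2 : F.F2) {J : Finset I} (hJ : J.Nonempty) {m S S' : ℕ}
    (hS : S + 2 * padicValNat p (m + 1).factorial ≤ S') {z : (A →ₗ[ℤ_[p]] B) × (ι → B)}
    (h1 : z ∈ F.Lt J (m + 1)) (h2 : z ∈ F.WCt J S') :
    ∃ y ∈ F.Lt J (m + 1), (p : ℤ_[p]) ^ S • y = z := by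
  obtain ⟨P, hP, e1⟩ := f2.2.2.1 J 0 (m + 1) S z.1 hJ h1.1
    fun J' hJ' w' r hr => sm_anti hS _ (h2.1 J' hJ' w' r hr)
  have h3 : ∀ s, ∃ c ∈ F.Bh J 0, (p : ℤ_[p]) ^ S • c = z.2 s := fun s =>
    sm_anti (S := S) (by omega) _ (h2.2 s (Set.mem_univ s))
  choose c hc e2 using h3
  refine ⟨(P, c), ⟨hP, fun s _ => ?_⟩, Prod.ext e1 (funext e2)⟩
  have h4 := h1.2 s (Set.mem_univ s)
  simp only [Nat.add_one_ne_zero, if_false, Nat.add_sub_cancel] at h4 ⊢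
  exact H33.sat_pow F hL J 0 m S _ (hc s) (by rw [e2]; exact h4)

theorem mem_Lt {J : Finset I} {m : ℕ} {z : (A →ₗ[ℤ_[p]] B) × (ι → B)} :
    z ∈ F.Lt J (m + 1) ↔ z.1 ∈ F.L J 0 (m + 1) ∧ ∀ s, z.2 s ∈ F.Bl J 0 m := by
  simp [FrameData.Lt, Submodule.mem_prod, Submodule.mem_pi]

/-- The inclusion of the first order part into the middle term. -/
def eL {J : Finset I} {j : I} (hj : j ∈ J) (m : ℕ) :
    ((∀ i : σ j, F.Bl J (F.wt j i) m) × (ι → F.Bl J 0 m)) →ₗ[ℤ_[p]] F.Lt J (m + 1) where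
  toFun y := ⟨(∑ i, V1 F j i (y.1 i), fun s => y.2 s), (mem_Lt F).2 ⟨Submodule.sum_mem _ fun i _ => by
    rw [V1_eq]
    exact H29.word_mem (Word.base j i 0 m _ hj (by rw [zero_add]; exact (y.1 i).2)) le_rfl,
      fun s => (y.2 s).2⟩⟩
  map_add' a b := Subtype.ext (Prod.ext (by simp [Finset.sum_add_distrib]) rfl)
  map_smul' c a := Subtype.ext (Prod.ext (by simp [Finset.smul_sum]) rfl)

theorem eL_val {J : Finset I} {j : I} (hj : j ∈ J) (m : ℕ)
    (y : (∀ i : σ j, F.Bl J (F.wt j i) m) × (ι → F.Bl J 0 m)) :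
    (eL F hj m y).1 = (∑ i, V1 F j i (y.1 i), fun s => (y.2 s : B)) := rfl

theorem mem_range_eL {J : Finset I} {j : I} (hj : j ∈ J) (m : ℕ) (z : F.Lt J (m + 1))
    (γ : σ j → B) (h1 : ∀ i, γ i ∈ F.Bl J (F.wt j i) m) (h2 : z.1.1 = ∑ i, V1 F j i (γ i)) :
    z ∈ LinearMap.range (eL F hj m) :=
  ⟨(fun i => ⟨γ i, h1 i⟩, fun s => ⟨z.1.2 s, ((mem_Lt F).1 z.2).2 s⟩),
    Subtype.ext (Prod.ext h2.symm rfl)⟩

end Frame

theorem loc2 (h : TrL) : Loc2 := by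
  intro p _ A B Γ I ι σ _ _ _ _ _ _ _ _ _ _ _ _ _ _ F hp hL hC f1 f2 _ _ J j m S S' hj hS Φ Φ' Φx
    hΦ hΦ' hΦx k hk
  have hJ : J.Nonempty := ⟨j, hj⟩
  have hB := fun w l => free_of hL.tf _ (hL.fg J w l hJ)
  have : ∀ w l, Module.Finite ℤ_[p] (F.Bl J w l) := fun w l => (hB w l).1
  have : ∀ w l, Module.Free ℤ_[p] (F.Bl J w l) := fun w l => (hB w l).2
  obtain ⟨_, _⟩ := free_of (p := p) (M := (A →ₗ[ℤ_[p]] B) × (ι → B))
    (fun x hx => Prod.ext (LinearMap.ext fun r => hL.tf _ (LinearMap.congr_fun (congrArg Prod.fst hx) r))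
      (funext fun s => hL.tf _ (congrFun (congrArg Prod.snd hx) s))) (F.Lt J (m + 1))
    ((f2.2.2.2.2 J 0 (m + 1) hJ).prod (Submodule.fg_pi fun _ => by
      simp only [Nat.add_one_ne_zero, if_false]; exact hL.fg J 0 _ hJ))
  have key := h p _ _ (eL F hj m)
    ((p : ℤ_[p]) • (LinearMap.piMap Φx).prodMap (LinearMap.piMap fun _ : ι => Φ')) Φ S ?_ ?_ ?_ ?_
    k hk
  · rw [smul_pow, map_smul, prodMap_pow, piMap_pow, piMap_pow, LinearMap.trace_prodMap',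
      trace_piMap, trace_piMap] at key
    simpa using key
  · rw [injective_iff_map_eq_zero]
    intro y hy
    have h1 := congrArg Subtype.val hy
    rw [eL_val] at h1
    refine Prod.ext (funext fun i => Subtype.ext ?_)
      (funext fun s => Subtype.ext (congrFun (congrArg Prod.snd h1) s))
    have h2 := cmp_unit F f2 j m 0 (fun i => y.1 i)
      (by simpa using (congrArg Prod.fst h1).symm) _ (single_mem_idx j i m)
    rw [xt_single] at h2
    exact h2.symm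
  · rintro x ⟨y, hy⟩
    have h1 := congrArg Subtype.val hy
    rw [eL_val] at h1
    obtain ⟨γ, h2, h3⟩ := sat_rep F hL f1 f2 hj ((mem_Lt F).1 x.2).1 _ (congrArg Prod.fst h1).symm
    exact mem_range_eL F hj m x γ h2 h3
  · intro y
    obtain ⟨z, hz, e⟩ := small_Lt F hL f2 hJ hS (Φ (eL F hj m y) - eL F hj m
      (((p : ℤ_[p]) • (LinearMap.piMap Φx).prodMap (LinearMap.piMap fun _ : ι => Φ')) y)).2 (by
      have h1 := hΦ.1 (eL F hj m y)
      have h2 : F.ΨLt j (eL F hj m y).1 - (eL F hj m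
          (((p : ℤ_[p]) • (LinearMap.piMap Φx).prodMap (LinearMap.piMap fun _ : ι => Φ')) y)).1 ∈
          F.WCt J S' := by
        rw [eL_val, eL_val]
        refine ⟨?_, fun s _ => ?_⟩
        · change F.ΨL j (∑ i, V1 F j i (y.1 i)) -
            ∑ i, V1 F j i ((p : ℤ_[p]) • (Φx i (y.1 i) : B)) ∈ F.WC J 0 S'
          rw [map_sum, ← Finset.sum_sub_distrib]
          refine Submodule.sum_mem _ fun i _ => ?_
          rw [PsiL_V1 F hC, (V1 F j i).map_smul (p : ℤ_[p]), ← smul_sub, ← map_sub,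
            ← neg_sub (Φx i (y.1 i) : B), map_neg]
          exact Submodule.smul_mem _ _ (Submodule.neg_mem _ (V1_WC F hL hC hj i S' (hΦx i _)))
        · change (p : ℤ_[p]) • F.Ψ j (y.2 s) - (p : ℤ_[p]) • (Φ' (y.2 s) : B) ∈
            sm ((p : ℤ_[p]) ^ S') (F.Bh J 0)
          have h3 := hΦ' (y.2 s)
          rw [one_smul] at h3
          rw [← smul_sub, ← neg_sub (Φ' (y.2 s) : B)]
          exact Submodule.smul_mem _ _ (Submodule.neg_mem _ h3)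
      have h3 := Submodule.add_mem _ h1 h2
      rwa [sub_add_sub_cancel] at h3)
    exact ⟨⟨z, hz⟩, trivial, Subtype.ext e⟩
  · intro x
    obtain ⟨_, ⟨u, hu, rfl⟩, _, ⟨v, hv, rfl⟩, e⟩ := Submodule.mem_sup.1 (hΦ.2 x)
    obtain ⟨hu1, hu2⟩ := (mem_Lt F (m := 0)).1 hu
    obtain ⟨γ, h2, h3⟩ := one_rep F f1 hj hu1
    have hu' : u ∈ F.Lt J (m + 1) := (mem_Lt F).2
      ⟨f1.1 J J 0 1 (m + 1) (Finset.Subset.refl J) (by omega) hu1,
        fun s => hL.lev J 0 0 m (Nat.zero_le m) (hu2 s)⟩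
    have e' : Φ x = (p : ℤ_[p]) • (⟨u, hu'⟩ : F.Lt J (m + 1)) +
        (p : ℤ_[p]) ^ 2 • (⟨v, hv⟩ : F.Lt J (m + 1)) := Subtype.ext e.symm
    rw [e']
    exact Submodule.add_mem_sup (Submodule.smul_mem _ _
      (mem_range_eL F hj m _ γ (fun i => hL.lev J _ 0 m (Nat.zero_le m) (h2 i)) h3))
      ⟨⟨v, hv⟩, trivial, rfl⟩

end

end Pool.Agent.MP_ea150c_mp.H87
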