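import Pool.Agent.MP_ea150c_mp.H49.SpecG

/-! Transition axioms of the frame of a model. -/

namespace Pool.Agent.MP_ea150c_mp.H87

open Pool.Agent.MP_ea150c_mp.H49

noncomputable section

section Abstract
variable {p : ℕ} [Fact p.Prime] {ι : Type} [Fintype ι] [DecidableEq ι]
  {T T' : Type} [CommRing T] [Algebra ℤ_[p] T] [CommRing T'] [Algebra ℤ_[p] T']

omit [Fintype ι] [DecidableEq ι] in
theorem cw_apply (L : T →ₗ[ℤ_[p]] T') (b : PS ι T) (l : ι → ℕ) : cw p L b l = L (b l) := rfl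

theorem DOp_apply (d : T →ₗ[ℤ_[p]] T) (f : ι → T) (b : PS ι T) (l : ι → ℕ) :
    DOp p d f b l = d (b l) + ∑ i, d (f i) * (if l i = 0 then 0 else b (l - Pi.single i 1)) := by
  simp only [DOp, LinearMap.add_apply, Pi.add_apply, cw_apply, LinearMap.sum_apply,
    Finset.sum_apply, LinearMap.restrictScalars_apply, LinearMap.smul_apply, Pi.smul_apply,
    smul_eq_mul]
  rfl

theorem map_kap (m : T →ₐ[ℤ_[p]] T') (a b : ℕ) (f G : T) :
    m (kap p a b f G) = kap p a b (m f) (m G) := by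
  simp [kap, map_sum, map_mul, map_pow]

omit [DecidableEq ι] in
theorem map_Ker (m : T →ₐ[ℤ_[p]] T') (f G : ι → T) (l' l : ι → ℕ) :
    m (Ker p f G l' l) = Ker p (fun i => m (f i)) (fun i => m (G i)) l' l := by
  simp [Ker, map_prod, map_kap]

theorem conjPsi (m : T →ₐ[ℤ_[p]] T') (μ : T →ₗ[ℤ_[p]] T') (hμ : ∀ a z, μ (a * z) = m a * μ z)
    (ψ : T →ₗ[ℤ_[p]] T) (ψ' : T' →ₗ[ℤ_[p]] T') (hψ : ∀ z, μ (ψ z) = ψ' (μ z)) (f G : ι → T)
    (b : PS ι T) (l : ι → ℕ) :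
    μ (PsiOp p ψ f G b l) =
      PsiOp p ψ' (fun i => m (f i)) (fun i => m (G i)) (fun l => μ (b l)) l := by
  change μ (∑ l₁ ∈ _, ψ (Ker p f G l l₁ * b l₁)) = ∑ l₁ ∈ _, ψ' (Ker p _ _ l l₁ * μ (b l₁))
  rw [map_sum]
  exact Finset.sum_congr rfl fun l₁ _ => by rw [hψ, hμ, map_Ker]

theorem conjD {σ : Type} [Fintype σ] (m : T →ₐ[ℤ_[p]] T') (μ : T →ₗ[ℤ_[p]] T')
    (hμ : ∀ a z, μ (a * z) = m a * μ z) (d : T →ₗ[ℤ_[p]] T) (d' : σ → T' →ₗ[ℤ_[p]] T')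
    (r : σ → T') (h1 : ∀ z, m (d z) = ∑ y, r y * d' y (m z))
    (h2 : ∀ z, μ (d z) = ∑ y, d' y (r y * μ z)) (f : ι → T) (b : PS ι T) (l : ι → ℕ) :
    μ (DOp p d f b l) =
      ∑ y, DOp p (d' y) (fun i => m (f i)) (fun l => r y * μ (b l)) l := by
  simp only [DOp_apply, map_add, map_sum, hμ, h1, h2, Finset.sum_add_distrib]
  congr 1
  rw [Finset.sum_comm]
  refine Finset.sum_congr rfl fun i _ => ?_
  rw [Finset.sum_mul]
  refine Finset.sum_congr rfl fun y _ => ?_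
  by_cases h : l i = 0
  · simp [h]
  · simp only [h, if_false]; ring

end Abstract

section Toric
variable {p : ℕ} [Fact p.Prime] {ι : Type} [Fintype ι] [DecidableEq ι]
  {σ σ' : Type} [Fintype σ] [DecidableEq σ] [Fintype σ'] [DecidableEq σ']
  {tor : σ → Bool} {tor' : σ' → Bool}

theorem conjStd (s1p : S1p) (m : Tor ℤ_[p] tor →ₐ[ℤ_[p]] Tor ℤ_[p] tor')
    (μ : Tor ℤ_[p] tor →ₗ[ℤ_[p]] Tor ℤ_[p] tor') (hμ : ∀ a z, μ (a * z) = m a * μ z)
    (hφ : ∀ z, m (phi0 _ ℤ_[p] p z) = phi0 _ ℤ_[p] p (m z))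
    (hψ : ∀ z, μ (psi0 _ ℤ_[p] p z) = psi0 _ ℤ_[p] p (μ z)) (f : ι → Tor ℤ_[p] tor)
    (b : PS ι (Tor ℤ_[p] tor)) (l : ι → ℕ) :
    μ (stdPsi p tor f b l) = stdPsi p tor' (fun i => m (f i)) (fun l => μ (b l)) l := by
  have e : ∀ a : Tor ℤ_[p] tor, m (divp p (a ^ p - phi0 tor ℤ_[p] p a)) =
      divp p (m a ^ p - phi0 tor' ℤ_[p] p (m a)) := by
    intro a
    have h1 := congrArg m ((s1p p σ tor).2.1 a)
    have h2 := (s1p p σ' tor').2.1 (m a)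
    rw [map_mul, map_natCast, map_sub, map_pow, hφ] at h1
    refine sub_eq_zero.1 ((s1p p σ' tor').1 _ ?_)
    rw [mul_sub, h1, h2, sub_self]
  unfold stdPsi
  rw [conjPsi m μ hμ _ _ hψ]
  simp only [e]

omit [Fintype ι] [DecidableEq ι] [Fintype σ'] [DecidableEq σ'] in
theorem tXi_mem {I Γ : Type} [AddCommGroup Γ] (cv : I → σ) (hcv : Function.Injective cv)
    (wt : σ → Γ) (J : Finset I) (k : I) (hk : k ∈ J) (ht : tor (cv k) = true) :
    tXi tor ℤ_[p] (cv k) ∈ Tp tor cv wt ℤ_[p] J (-wt (cv k)) := by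
  intro u hu
  have hu' : u = ⟨_, single_neg_mem tor (cv k) ht⟩ := by
    by_contra hne
    apply hu
    simp only [tXi, monoZ, dif_pos (single_neg_mem tor (cv k) ht)]
    simp [AddMonoidAlgebra.coeff_single, Ne.symm hne]
  subst hu'
  refine ⟨fun v hv => ?_, ?_⟩
  · have : cv v ≠ cv k := fun e => hv (hcv e ▸ hk)
    simp [this]
  · rw [Finset.sum_eq_single (cv k)]
    · simp
    · intro y _ hy; simp [hy]
    · simp

end Toric

section Model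
variable {I τ ι : Type} [LinearOrder I] [Fintype I] [Fintype τ] [DecidableEq τ] [Fintype ι]
  [DecidableEq ι] {M : Model I τ ι} {h : M.Good} {p : ℕ} [Fact p.Prime]

theorem chi_apply (j : I) (a : Ainv ℤ_[p] I τ) :
    chi p τ j a = tX (torS τ j) ℤ_[p] (cS τ j) ^ 2 * rhoA ℤ_[p] τ j a := rfl

theorem chiInv_apply (j : I) (z : Tor ℤ_[p] (torS τ j)) :
    chiInv p τ j z = kapS ℤ_[p] τ j (tXi (torS τ j) ℤ_[p] (cS τ j) ^ 2 * z) := rfl

theorem c_mul (j : I) :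
    tX (torS τ j) ℤ_[p] (cS τ j) ^ 2 * tXi (torS τ j) ℤ_[p] (cS τ j) ^ 2 = 1 := by
  rw [← mul_pow, tX_mul_tXi _ _ rfl, one_pow]

theorem chi_mul (j : I) (a b : Ainv ℤ_[p] I τ) :
    chi p τ j (a * b) = rhoA ℤ_[p] τ j a * chi p τ j b := by
  rw [chi_apply, chi_apply, map_mul]; ring

include h in
theorem chi_chiInv (g1 : G1) (j : I) (z : Tor ℤ_[p] (torS τ j)) :
    chi p τ j (chiInv p τ j z) = z := by
  rw [chi_apply, chiInv_apply, (g1 I τ ι M h ℤ_[p] j).1, ← mul_assoc, c_mul, one_mul]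

include h in
theorem chiInv_chi (g1 : G1) (j : I) (a : Ainv ℤ_[p] I τ) :
    chiInv p τ j (chi p τ j a) = a := by
  rw [chi_apply, chiInv_apply, ← mul_assoc, mul_comm (tXi _ _ _ ^ 2), c_mul, one_mul,
    (g1 I τ ι M h ℤ_[p] j).2.1]

include h in
theorem chi_inj (g1 : G1) (j : I) {a b : Ainv ℤ_[p] I τ} (e : chi p τ j a = chi p τ j b) :
    a = b := by
  rw [← chiInv_chi (h := h) g1 j a, e, chiInv_chi (h := h) g1]

include h in
theorem rho_inj (g1 : G1) (j : I) {a b : Ainv ℤ_[p] I τ}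
    (e : rhoA ℤ_[p] τ j a = rhoA ℤ_[p] τ j b) : a = b := by
  rw [← (g1 I τ ι M h ℤ_[p] j).2.1 a, e, (g1 I τ ι M h ℤ_[p] j).2.1]

include h in
theorem chi_mem (g1 : G1) (s1 : S1) (J : Finset I) (j : I) (hj : j ∈ J) (w : Gam I)
    (a : Ainv ℤ_[p] I τ) : a ∈ M.Ap ℤ_[p] J w ↔
      chi p τ j a ∈ Tp (torS τ j) (cvS τ j) (fun y => M.wtv y.1) ℤ_[p] J
        (w + (2 : ℕ) • M.wtv (Sum.inl (j, 0))) := by
  obtain ⟨-, hX, hm, -⟩ := (s1 ℤ_[p] (Sl τ j) (torS τ j)).2.2.2.2.2.2.2.2 I (Gam I) (cvS τ j)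
    (fun y => M.wtv y.1) J
  rw [(g1 I τ ι M h ℤ_[p] j).2.2.2.1 J w a hj, chi_apply]
  constructor
  · intro ha
    have := hm _ _ _ _ (hX (cS τ j)) (hm _ _ _ _ (hX (cS τ j)) ha)
    rw [← mul_assoc, ← pow_two] at this
    convert this using 2
    change _ = M.wtv (Sum.inl (j, 0)) + (M.wtv (Sum.inl (j, 0)) + w)
    rw [two_nsmul]; abel
  · intro ha
    have hi := tXi_mem (p := p) (tor := torS τ j) (cvS τ j)
      (fun u v e => by simpa [cvS] using e) (fun y => M.wtv y.1) J j hj rfl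
    have := hm _ _ _ _ hi (hm _ _ _ _ hi ha)
    rw [← mul_assoc, ← pow_two, ← mul_assoc, mul_comm (tXi _ _ _ ^ 2)] at this
    have e := c_mul (p := p) (τ := τ) j
    change tX _ _ _ ^ 2 * tXi _ _ (cvS τ j j) ^ 2 = 1 at e
    rw [e, one_mul] at this
    convert this using 2
    change _ = -M.wtv (Sum.inl (j, 0)) + (-M.wtv (Sum.inl (j, 0)) + _)
    rw [two_nsmul]; abel

include h in
theorem cw_chi_mem (g1 : G1) (s1 : S1) (J : Finset I) (j : I) (hj : j ∈ J) (w : Gam I)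
    (b : PS ι (Ainv ℤ_[p] I τ)) : b ∈ M.Bh p J w ↔
      cw p (chi p τ j) b ∈ BS (torS τ j) (cvS τ j) (fun y => M.wtv y.1) p M.om J w := by
  have e : ∀ l : ι → ℕ, w + ∑ i, (l i + 1) • M.om i - ∑ y : Sl τ j, M.wtv y.1 =
      w + M.w0 + ∑ i, l i • M.om i + (2 : ℕ) • M.wtv (Sum.inl (j, 0)) := by
    intro l
    rw [(g1 I τ ι M h ℤ_[p] j).2.2.2.2.2.2.2.2.2, Model.w0]
    simp only [add_nsmul, one_nsmul, Finset.sum_add_distrib]
    abel
  simp only [Model.Bh, BS, Submodule.mem_pi, Set.mem_univ, true_imp_iff, cw_apply, e]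
  exact forall_congr' fun l => chi_mem (h := h) g1 s1 J j hj _ _

omit [Fintype I] [Fintype τ] [DecidableEq τ] [LinearOrder I] [Fact p.Prime] in
theorem gam_tf (hp : 7 ≤ p) (g : Gam I) (e : p • g = 0) : g = 0 :=
  (smul_eq_zero.1 e).resolve_left (by omega)

include h in
theorem cw_chi_chiInv (g1 : G1) (j : I) (y : PS ι (Tor ℤ_[p] (torS τ j))) :
    cw p (chi p τ j) (cw p (chiInv p τ j) y) = y :=
  funext fun l => chi_chiInv (h := h) g1 j (y l)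

include h in
theorem cw_chi_inj (g1 : G1) (j : I) {a b : PS ι (Ainv ℤ_[p] I τ)}
    (e : cw p (chi p τ j) a = cw p (chi p τ j) b) : a = b :=
  funext fun l => chi_inj (h := h) g1 j (congrFun e l)

theorem cw_chi_D (g1 : G1) (j : I) (y : Sl τ j) (b : PS ι (Ainv ℤ_[p] I τ)) :
    cw p (chi p τ j) ((M.frame p h).D j y b) =
      DOp p (pd _ ℤ_[p] y) (fun i => rhoA ℤ_[p] τ j (M.fA ℤ_[p] h i)) (cw p (chi p τ j) b) := by
  have e : (M.frame p h).D j y = cw p (chiInv p τ j) ∘ₗ DOp p (pd _ ℤ_[p] y)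
    (fun i => rhoA ℤ_[p] τ j (M.fA ℤ_[p] h i)) ∘ₗ cw p (chi p τ j) := rfl
  rw [e, LinearMap.comp_apply, LinearMap.comp_apply, cw_chi_chiInv (h := h) g1]

theorem cw_chi_Psi (g1 : G1) (j : I) (b : PS ι (Ainv ℤ_[p] I τ)) :
    cw p (chi p τ j) ((M.frame p h).Ψ j b) =
      stdPsi p _ (fun i => rhoA ℤ_[p] τ j (M.fA ℤ_[p] h i)) (cw p (chi p τ j) b) := by
  have e : (M.frame p h).Ψ j = cw p (chiInv p τ j) ∘ₗ stdPsi p _
    (fun i => rhoA ℤ_[p] τ j (M.fA ℤ_[p] h i)) ∘ₗ cw p (chi p τ j) := rfl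
  rw [e, LinearMap.comp_apply, LinearMap.comp_apply, cw_chi_chiInv (h := h) g1]

theorem chi_D (g1 : G1) (j : I) (y : Sl τ j) (b : PS ι (Ainv ℤ_[p] I τ)) (l : ι → ℕ) :
    chi p τ j ((M.frame p h).D j y b l) =
      DOp p (pd _ ℤ_[p] y) (fun i => rhoA ℤ_[p] τ j (M.fA ℤ_[p] h i))
        (fun l => chi p τ j (b l)) l := by
  rw [← cw_apply, cw_chi_D g1]
  congr 1

theorem chi_Psi (g1 : G1) (j : I) (b : PS ι (Ainv ℤ_[p] I τ)) (l : ι → ℕ) :
    chi p τ j ((M.frame p h).Ψ j b l) =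
      stdPsi p _ (fun i => rhoA ℤ_[p] τ j (M.fA ℤ_[p] h i)) (fun l => chi p τ j (b l)) l := by
  rw [← cw_apply, cw_chi_Psi g1]
  congr 1

omit [Fintype ι] [DecidableEq ι] in
theorem cw_chi_smul (j : I) (a : Ainv ℤ_[p] I τ) (b : PS ι (Ainv ℤ_[p] I τ)) :
    cw p (chi p τ j) (a • b) = rhoA ℤ_[p] τ j a • cw p (chi p τ j) b :=
  funext fun l => chi_mul j a (b l)

theorem cw_chi_Qw (g1 : G1) (k : I) (s : List (Sl τ k)) (b : PS ι (Ainv ℤ_[p] I τ)) :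
    cw p (chi p τ k) ((M.frame p h).Qw (s.map (Sigma.mk k)) b) =
      s.foldr (fun x Q => DOp p (pd _ ℤ_[p] x)
        (fun i => rhoA ℤ_[p] τ k (M.fA ℤ_[p] h i)) ∘ₗ Q) LinearMap.id (cw p (chi p τ k) b) := by
  induction s with
  | nil => rfl
  | cons x s ih =>
    rw [List.foldr_cons, LinearMap.comp_apply, ← ih, ← cw_chi_D g1, List.map_cons,
      FrameData.Qw, List.foldr_cons, LinearMap.comp_apply, FrameData.Qw]

theorem mulL_apply {A B : Type} [CommRing A] [Algebra ℤ_[p] A] [AddCommGroup B] [Module A B]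
    [Module ℤ_[p] B] [IsScalarTower ℤ_[p] A B] (a : A) (b : B) : mulL ℤ_[p] B a b = a • b := rfl

theorem rho_d (g1 : G1) (j : I) (y : Sl τ j) (a : Ainv ℤ_[p] I τ) :
    rhoA ℤ_[p] τ j ((M.frame p h).d j y a) = pd _ ℤ_[p] y (rhoA ℤ_[p] τ j a) :=
  (g1 I τ ι M h ℤ_[p] j).1 _

theorem trans_ne (g1 : G1) (g3a : G3a) (gm : GM) (s1 : S1) (hp : 7 ≤ p) (j k : I) (hjk : k ≠ j)
    (i : Sl τ k) : ∃ r : Sl τ j → Ainv ℤ_[p] I τ,
      (∀ l, r l ∈ M.Ap ℤ_[p] {j, k} (M.wtv l.1 - M.wtv i.1)) ∧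
      (∀ a, (M.frame p h).d k i a = ∑ l, r l * (M.frame p h).d j l a) ∧
      (∀ b, (M.frame p h).D k i b = ∑ l, (M.frame p h).D j l (r l • b)) := by
  obtain ⟨s, m, hs, hc, hsm, -, -, hr⟩ := g3a I τ ι M h p (by omega) k j hjk
  obtain ⟨r, hr0, hr1, hr2⟩ := hr i
  obtain ⟨hT, hR, -⟩ := gm p hp _ I (Gam I) (torS τ j) (cvS τ j) (fun y => M.wtv y.1)
    (fun _ => rfl) (gam_tf hp) {k, j} s hs
  choose R hR0 hR1 hR2 using hR
  obtain ⟨-, -, hm, -⟩ := (s1 ℤ_[p] (Sl τ j) (torS τ j)).2.2.2.2.2.2.2.2 I (Gam I) (cvS τ j)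
    (fun y => M.wtv y.1) {k, j}
  have hρκ := (g1 I τ ι M h ℤ_[p] j).1
  have hκρ := (g1 I τ ι M h ℤ_[p] k).2.1
  set m' : Tor ℤ_[p] (torS τ k) →ₐ[ℤ_[p]] Tor ℤ_[p] (torS τ j) :=
    (rhoA ℤ_[p] τ j).comp (kapS ℤ_[p] τ k) with hm'
  set μ : Tor ℤ_[p] (torS τ k) →ₗ[ℤ_[p]] Tor ℤ_[p] (torS τ j) :=
    chi p τ j ∘ₗ chiInv p τ k with hμ
  have em : ∀ z, m' z = s (m z) := hsm
  have eμ : ∀ z, μ z = s (tX _ ℤ_[p] (cS τ j) ^ 2 * m (tXi _ ℤ_[p] (cS τ k) ^ 2 * z)) := by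
    intro z
    have : s (tX _ ℤ_[p] (cS τ j)) = tX _ ℤ_[p] (cS τ j) := hc j
    rw [map_mul, map_pow, this, ← hsm]
    rfl
  have hμm : ∀ a z, μ (a * z) = m' a * μ z := by
    intro a z
    rw [eμ, eμ, em, mul_left_comm _ a, map_mul m, mul_left_comm, map_mul s]
  set r' : Sl τ j → Tor ℤ_[p] (torS τ j) := fun l => ∑ y, s (r y) * R y l with hr'
  have h1 : ∀ z, m' (pd _ ℤ_[p] i z) = ∑ l, r' l * pd _ ℤ_[p] l (m' z) := by
    intro z
    rw [em, em, hr1, map_sum]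
    simp only [hr', Finset.sum_mul]
    rw [Finset.sum_comm]
    refine Finset.sum_congr rfl fun y _ => ?_
    have := hR1 y (s (m z))
    rw [s.symm_apply_apply] at this
    rw [map_mul, this, Finset.mul_sum]
    exact Finset.sum_congr rfl fun l _ => by ring
  have h2 : ∀ z, μ (pd _ ℤ_[p] i z) = ∑ l, pd _ ℤ_[p] l (r' l * μ z) := by
    intro z
    rw [eμ, eμ, hr2, map_sum]
    simp only [hr', Finset.sum_mul, map_sum]
    rw [Finset.sum_comm]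
    refine Finset.sum_congr rfl fun y _ => ?_
    have := hR2 y (s (r y * (tX _ ℤ_[p] (cS τ j) ^ 2 * m (tXi _ ℤ_[p] (cS τ k) ^ 2 * z))))
    rw [s.symm_apply_apply] at this
    rw [this]
    refine Finset.sum_congr rfl fun l _ => ?_
    rw [map_mul s (r y)]
    congr 1
    ring
  refine ⟨fun l => kapS ℤ_[p] τ j (r' l), fun l => ?_, fun a => ?_, fun b => ?_⟩
  · rw [(g1 I τ ι M h ℤ_[p] j).2.2.2.1 _ _ _ (by simp), hρκ, Finset.pair_comm]
    refine Submodule.sum_mem _ fun y _ => ?_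
    have := hm _ _ _ _ ((hT _ le_rfl _ _).1 (hr0 y)) (hR0 y l)
    convert this using 2
    abel
  · apply rho_inj (h := h) g1 j
    have e := h1 (rhoA ℤ_[p] τ k a)
    have e' : m' (rhoA ℤ_[p] τ k a) = rhoA ℤ_[p] τ j a := by
      rw [hm', AlgHom.comp_apply, hκρ]
    rw [e'] at e
    rw [map_sum]
    simp only [map_mul, hρκ, rho_d g1]
    exact e
  · funext l
    apply chi_inj (h := h) g1 j
    have e := conjD m' μ hμm _ _ r' h1 h2 (fun t => rhoA ℤ_[p] τ k (M.fA ℤ_[p] h t))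
      (fun l => chi p τ k (b l)) l
    have e1 : ∀ a, m' (rhoA ℤ_[p] τ k a) = rhoA ℤ_[p] τ j a := by
      intro a; rw [hm', AlgHom.comp_apply, hκρ]
    have e2 : ∀ a, μ (chi p τ k a) = chi p τ j a := by
      intro a; rw [hμ, LinearMap.comp_apply, chiInv_chi (h := h) g1]
    simp only [e1, e2] at e
    rw [Finset.sum_apply, map_sum]
    simp only [chi_D g1, Pi.smul_apply, smul_eq_mul, chi_mul, hρκ]
    exact e

theorem near_conj (g1 : G1) (J : Finset I) (k : I) (hk : k ∈ J)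
    (N : PS ι (Tor ℤ_[p] (torS τ k)) →ₗ[ℤ_[p]] PS ι (Tor ℤ_[p] (torS τ k)))
    (hN : N ∈ NearStd (torS τ k) (cvS τ k) (fun y => M.wtv y.1) p J
      (fun i => rhoA ℤ_[p] τ k (M.fA ℤ_[p] h i))) :
    cw p (chiInv p τ k) ∘ₗ N ∘ₗ cw p (chi p τ k) ∈ (M.frame p h).NearSp J k := by
  induction hN using Submodule.span_induction with
  | zero => simp
  | add a b _ _ ha hb =>
    rw [LinearMap.add_comp, LinearMap.comp_add]; exact Submodule.add_mem _ ha hb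
  | smul c a _ ha =>
    rw [LinearMap.smul_comp, LinearMap.comp_smul]; exact Submodule.smul_mem _ _ ha
  | mem N hN =>
    obtain ⟨s, hs, a, ha, rfl⟩ := hN
    have hρκ := (g1 I τ ι M h ℤ_[p] k).1
    refine Submodule.subset_span ⟨s.map (Sigma.mk k), by simpa using hs, ?_, kapS ℤ_[p] τ k a, ?_, ?_⟩
    · intro x hx
      obtain ⟨y, -, rfl⟩ := List.mem_map.1 hx
      exact hk
    · rw [List.map_map]
      change kapS ℤ_[p] τ k a ∈ M.Ap ℤ_[p] J _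
      rw [(g1 I τ ι M h ℤ_[p] k).2.2.2.1 _ _ _ hk, hρκ]
      exact ha
    · rw [List.length_map, LinearMap.smul_comp, LinearMap.comp_smul]
      congr 1
      refine LinearMap.ext fun b => cw_chi_inj (h := h) g1 k ?_
      simp only [LinearMap.comp_apply, mulL_apply]
      rw [cw_chi_chiInv (h := h) g1, cw_chi_Qw g1, cw_chi_Psi g1, cw_chi_smul, hρκ]

theorem near_ne (g1 : G1) (g3a : G3a) (gm : GM) (s1 : S1) (s1p : S1p) (hp : 7 ≤ p) (j k : I)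
    (hjk : j ≠ k) (S : ℕ) : ∃ N ∈ (M.frame p h).NearSp {j, k} k, ∀ J, j ∈ J → k ∈ J → ∀ w b,
      b ∈ M.Bh p J (p • w) →
      (M.frame p h).Ψ j b - (M.frame p h).Ψ k b - N b ∈ sm ((p : ℤ_[p]) ^ S) (M.Bh p J w) := by
  obtain ⟨s, m, hs, hc, hsm, hφ, hψ, -⟩ := g3a I τ ι M h p (by omega) j k hjk
  obtain ⟨-, -, hN⟩ := gm p hp _ I (Gam I) (torS τ k) (cvS τ k) (fun y => M.wtv y.1)
    (fun _ => rfl) (gam_tf hp) {j, k} s hs
  obtain ⟨N, hN, hNb⟩ := hN ι M.om (fun i => rhoA ℤ_[p] τ k (M.fA ℤ_[p] h i)) (fun i =>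
    ((g1 I τ ι M h ℤ_[p] k).2.2.2.1 _ _ _ (by simp)).1
      ((g1 I τ ι M h ℤ_[p] k).2.2.2.2.2.1 i _)) S
  refine ⟨_, near_conj g1 _ k (by simp) N hN, fun J hj hk w b hb => ?_⟩
  obtain ⟨y, hy, e⟩ := hNb J (by simp [Finset.insert_subset_iff, hj, hk]) w _
    ((cw_chi_mem (h := h) g1 s1 J k hk _ b).1 hb)
  have hcc := cw_chi_chiInv (h := h) g1 k y
  refine ⟨cw p (chiInv p τ k) y, (cw_chi_mem (h := h) g1 s1 J k hk _ _).2 (by rw [hcc]; exact hy),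
    cw_chi_inj (h := h) g1 k ?_⟩
  rw [LinearMap.lsmul_apply] at e ⊢
  rw [map_smul, hcc, e, map_sub, map_sub, cw_chi_Psi g1 k, LinearMap.comp_apply,
    LinearMap.comp_apply, cw_chi_chiInv (h := h) g1]
  congr 2
  have hκρ := (g1 I τ ι M h ℤ_[p] j).2.1
  obtain ⟨μ, eμ⟩ : ∃ μ : Tor ℤ_[p] (torS τ j) →ₗ[ℤ_[p]] Tor ℤ_[p] (torS τ k), ∀ z,
      μ z = tX _ ℤ_[p] (cS τ k) ^ 2 * m (tXi _ ℤ_[p] (cS τ j) ^ 2 * z) :=
    ⟨LinearMap.mulLeft ℤ_[p] (tX _ ℤ_[p] (cS τ k) ^ 2) ∘ₗ m.toLinearMap ∘ₗ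
      LinearMap.mulLeft ℤ_[p] (tXi _ ℤ_[p] (cS τ j) ^ 2), fun _ => rfl⟩
  obtain ⟨m', em⟩ : ∃ m' : Tor ℤ_[p] (torS τ j) →ₐ[ℤ_[p]] Tor ℤ_[p] (torS τ k), ∀ z,
      m' z = m z := ⟨m, fun _ => rfl⟩
  have esμ : ∀ z, chi p τ k (chiInv p τ j z) = s (μ z) := by
    intro z
    have : s (tX _ ℤ_[p] (cS τ k)) = tX _ ℤ_[p] (cS τ k) := hc k
    rw [eμ, map_mul, map_pow, this, ← hsm, chi_apply, chiInv_apply]
  have hμm : ∀ a z, μ (a * z) = m' a * μ z := by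
    intro a z
    rw [eμ, eμ, em, mul_left_comm _ a, map_mul m, mul_left_comm]
  have e1 : ∀ a, m' (rhoA ℤ_[p] τ j a) = s.symm (rhoA ℤ_[p] τ k a) := by
    intro a
    rw [AlgEquiv.eq_symm_apply, em, ← hsm, hκρ]
  have e2 : ∀ a, μ (chi p τ j a) = s.symm (chi p τ k a) := by
    intro a
    rw [AlgEquiv.eq_symm_apply, ← esμ, chiInv_chi (h := h) g1]
  funext l
  have e3 := conjStd s1p m' μ hμm (fun z => by rw [em, em, hφ]) (fun z => by rw [eμ, eμ, hψ])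
    (fun t => rhoA ℤ_[p] τ j (M.fA ℤ_[p] h t)) (fun l => chi p τ j (b l)) l
  simp only [e1, e2] at e3
  simp only [cw_apply]
  rw [← e3, ← esμ, ← chi_Psi g1, chiInv_chi (h := h) g1]

end Model

theorem g3b (g1 : G1) (g3a : G3a) (gm : GM) (s1 : S1) (s1p : S1p) : G3b := by
  intro I τ ι _ _ _ _ _ _ M h p _ hp
  constructor
  · intro j k i
    by_cases hjk : k = j
    · subst hjk
      refine ⟨fun l => if l = i then 1 else 0, fun l => ?_, fun a => ?_, fun b => ?_⟩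
      · by_cases hl : l = i
        · subst hl
          simp only [if_true, sub_self]
          change (1 : Ainv ℤ_[p] I τ) ∈ M.Ap ℤ_[p] _ _
          rw [(g1 I τ ι M h ℤ_[p] k).2.2.2.1 _ _ _ (by simp), map_one]
          exact ((s1 ℤ_[p] (Sl τ k) (torS τ k)).2.2.2.2.2.2.2.2 I (Gam I) _ _ _).1
        · simp only [if_neg hl]; exact Submodule.zero_mem _
      · simp
      · rw [Finset.sum_eq_single i]
        · simp
        · intro l _ hl; simp [hl]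
        · simp
    · exact trans_ne g1 g3a gm s1 hp j k hjk i
  · intro j k S
    by_cases hjk : j = k
    · subst hjk
      exact ⟨0, Submodule.zero_mem _, fun J _ _ w b _ => by simp⟩
    · exact near_ne g1 g3a gm s1 s1p hp j k hjk S

end

end Pool.Agent.MP_ea150c_mp.H87
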